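import Pool.Agent.Y329.CG.Stm

/-!
The integral of bounded functions with respect to a finitely additive probability measure.
-/

set_option autoImplicit false

namespace Pool.Agent.Y658.CG

open Pool.Agent.Y329.CG MeasureTheory Set

section

variable {G : Type} [MeasurableSpace G] [DiscreteMeasurableSpace G]

/-- the operator valued set function -/
noncomputable def TT (m : Set G → ℝ) (A : Set G) : ℝ →L[ℝ] ℝ := m A • ContinuousLinearMap.id ℝ ℝ

theorem TT_apply (m : Set G → ℝ) (A : Set G) (x : ℝ) : TT m A x = m A * x := rfl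

/-- the integral of simple functions -/
noncomputable def Ig (m : Set G → ℝ) (s : SimpleFunc G ℝ) : ℝ := s.setToSimpleFunc (TT m)

theorem Ig_eq (m : Set G → ℝ) (s : SimpleFunc G ℝ) :
    Ig m s = ∑ x ∈ s.range, m (s ⁻¹' {x}) * x := rfl

theorem fma {m : Set G → ℝ} (hadd : ∀ A B, Disjoint A B → m (A ∪ B) = m A + m B) :
    FinMeasAdditive (0 : Measure G) (TT m) := by
  intro A B _ _ _ _ hAB
  unfold TT
  rw [hadd A B hAB, add_smul]

theorem m_empty {m : Set G → ℝ} (hadd : ∀ A B, Disjoint A B → m (A ∪ B) = m A + m B) :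
    m ∅ = 0 := by
  have h := hadd ∅ ∅ (disjoint_bot_left)
  rw [Set.union_empty] at h
  linarith

theorem Ig_add {m : Set G → ℝ} (hadd : ∀ A B, Disjoint A B → m (A ∪ B) = m A + m B)
    (s t : SimpleFunc G ℝ) : Ig m (s + t) = Ig m s + Ig m t :=
  SimpleFunc.setToSimpleFunc_add (TT m) (fma hadd) integrable_zero_measure integrable_zero_measure

theorem Ig_mono {m : Set G → ℝ} (h0 : ∀ A, 0 ≤ m A)
    (hadd : ∀ A B, Disjoint A B → m (A ∪ B) = m A + m B)
    (s t : SimpleFunc G ℝ) (hst : ∀ x, s x ≤ t x) : Ig m s ≤ Ig m t :=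
  SimpleFunc.setToSimpleFunc_mono (fma hadd) (fun A _ _ x hx => mul_nonneg (h0 A) hx)
    integrable_zero_measure integrable_zero_measure hst

theorem Ig_const {m : Set G → ℝ} (h1 : m univ = 1)
    (hadd : ∀ A B, Disjoint A B → m (A ∪ B) = m A + m B) (c : ℝ) :
    Ig m (SimpleFunc.const G c) = c := by
  have hT : TT m ∅ = 0 := by
    unfold TT
    rw [m_empty hadd, zero_smul]
  have h := SimpleFunc.setToSimpleFunc_const (TT m) hT c (m := inferInstanceAs (MeasurableSpace G))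
  rw [TT_apply, h1, one_mul] at h
  exact h

/-- the composition -/
noncomputable def cmp (s : SimpleFunc G ℝ) (σ : G → G) : SimpleFunc G ℝ :=
  s.comp σ Measurable.of_discrete

theorem cmp_apply (s : SimpleFunc G ℝ) (σ : G → G) (x : G) : cmp s σ x = s (σ x) := rfl

theorem Ig_cmp {m : Set G → ℝ} (hadd : ∀ A B, Disjoint A B → m (A ∪ B) = m A + m B)
    (s : SimpleFunc G ℝ) (σ : G → G) (hσ : ∀ A, m (σ ⁻¹' A) = m A) : Ig m (cmp s σ) = Ig m s := by
  rw [Ig_eq, Ig_eq]
  have e1 : ∀ x : ℝ, (cmp s σ) ⁻¹' {x} = σ ⁻¹' (s ⁻¹' {x}) := fun x => rfl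
  have hsub : (cmp s σ).range ⊆ s.range := by
    intro x hx
    rw [SimpleFunc.mem_range] at hx ⊢
    obtain ⟨y, rfl⟩ := hx
    exact ⟨σ y, rfl⟩
  rw [← Finset.sum_subset hsub]
  · refine Finset.sum_congr rfl fun x _ => ?_
    rw [e1, hσ]
  · intro x _ hx
    have e2 : (cmp s σ) ⁻¹' {x} = ∅ := by
      ext y
      simp only [Set.mem_preimage, Set.mem_singleton_iff, Set.mem_empty_iff_false, iff_false]
      intro hy
      exact hx (SimpleFunc.mem_range.2 ⟨y, hy⟩)
    rw [← hσ, ← e1, e2, m_empty hadd, zero_mul]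

theorem approx {f : G → ℝ} (hf : Bd f) {ε : ℝ} (hε : 0 < ε) :
    ∃ s : SimpleFunc G ℝ, ∀ x, |f x - s x| ≤ ε := by
  obtain ⟨C, hC⟩ := hf
  have hfin : (Set.range fun x => ε * (⌊f x / ε⌋ : ℝ)).Finite := by
    refine ((Set.finite_Icc ⌊-C / ε⌋ ⌊C / ε⌋).image fun z : ℤ => ε * (z : ℝ)).subset ?_
    rintro _ ⟨x, rfl⟩
    refine ⟨⌊f x / ε⌋, ⟨?_, ?_⟩, rfl⟩
    · exact Int.floor_le_floor (div_le_div_of_nonneg_right (abs_le.1 (hC x)).1 hε.le)
    · exact Int.floor_le_floor (div_le_div_of_nonneg_right (abs_le.1 (hC x)).2 hε.le)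
  refine ⟨⟨fun x => ε * (⌊f x / ε⌋ : ℝ), fun _ => MeasurableSet.of_discrete, hfin⟩, ?_⟩
  intro x
  show |f x - ε * (⌊f x / ε⌋ : ℝ)| ≤ ε
  have h1 := Int.floor_le (f x / ε)
  have h2 := Int.lt_floor_add_one (f x / ε)
  rw [le_div_iff₀ hε] at h1
  rw [div_lt_iff₀ hε] at h2
  rw [abs_le]
  constructor <;> nlinarith

/-- the integral -/
noncomputable def Lam (m : Set G → ℝ) (f : G → ℝ) : ℝ :=
  sInf {r | ∃ s : SimpleFunc G ℝ, (∀ x, f x ≤ s x) ∧ r = Ig m s}

theorem close {m : Set G → ℝ} (h0 : ∀ A, 0 ≤ m A) (h1 : m univ = 1)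
    (hadd : ∀ A B, Disjoint A B → m (A ∪ B) = m A + m B) {f : G → ℝ} {s : SimpleFunc G ℝ} {ε : ℝ}
    (h : ∀ x, |f x - s x| ≤ ε) : |Lam m f - Ig m s| ≤ ε := by
  have hlow : ∀ r ∈ {r | ∃ s : SimpleFunc G ℝ, (∀ x, f x ≤ s x) ∧ r = Ig m s},
      Ig m s - ε ≤ r := by
    rintro r ⟨t, ht, rfl⟩
    have h2 : Ig m s ≤ Ig m (t + SimpleFunc.const G ε) := by
      apply Ig_mono h0 hadd
      intro x
      have h3 := (abs_le.1 (h x)).1
      have h4 := ht x
      show s x ≤ t x + ε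
      linarith
    rw [Ig_add hadd, Ig_const h1 hadd] at h2
    linarith
  have hmem : Ig m s + ε ∈ {r | ∃ s : SimpleFunc G ℝ, (∀ x, f x ≤ s x) ∧ r = Ig m s} := by
    refine ⟨s + SimpleFunc.const G ε, fun x => ?_, ?_⟩
    · have h3 := (abs_le.1 (h x)).2
      show f x ≤ s x + ε
      linarith
    · rw [Ig_add hadd, Ig_const h1 hadd]
  have h2 : Ig m s - ε ≤ Lam m f := le_csInf ⟨_, hmem⟩ hlow
  have h3 : Lam m f ≤ Ig m s + ε := csInf_le ⟨_, hlow⟩ hmem
  rw [abs_le]
  constructor <;> linarith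

end

/-- **The integral with respect to a finitely additive probability measure.** -/
theorem done : S_INT := by
  intro G m h0 h1 hadd
  letI : MeasurableSpace G := ⊤
  haveI : DiscreteMeasurableSpace G := ⟨fun _ => trivial⟩
  refine ⟨Lam m, ?_, ?_, ?_, ?_⟩
  · intro f g hf hg
    have key : ∀ ε : ℝ, 0 < ε → |Lam m (fun x => f x + g x) - (Lam m f + Lam m g)| ≤ 4 * ε := by
      intro ε hε
      obtain ⟨s, hs⟩ := approx hf hε
      obtain ⟨t, ht⟩ := approx hg hε
      have a1 := close h0 h1 hadd hs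
      have a2 := close h0 h1 hadd ht
      have a3 : |Lam m (fun x => f x + g x) - Ig m (s + t)| ≤ 2 * ε := by
        apply close h0 h1 hadd
        intro x
        have b1 := abs_le.1 (hs x)
        have b2 := abs_le.1 (ht x)
        show |f x + g x - (s x + t x)| ≤ 2 * ε
        rw [abs_le]
        constructor <;> linarith [b1.1, b1.2, b2.1, b2.2]
      rw [Ig_add hadd] at a3
      rw [abs_le] at a1 a2 a3 ⊢
      constructor <;> linarith [a1.1, a1.2, a2.1, a2.2, a3.1, a3.2]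
    by_contra hne
    have hpos : 0 < |Lam m (fun x => f x + g x) - (Lam m f + Lam m g)| :=
      abs_pos.2 (sub_ne_zero.2 hne)
    have := key (|Lam m (fun x => f x + g x) - (Lam m f + Lam m g)| / 8) (by linarith)
    linarith
  · intro f g hf hg hfg
    by_contra hlt
    rw [not_le] at hlt
    have hε : 0 < (Lam m f - Lam m g) / 8 := by linarith
    obtain ⟨s, hs⟩ := approx hf hε
    obtain ⟨t, ht⟩ := approx hg hε
    have a1 := abs_le.1 (close h0 h1 hadd hs)
    have a2 := abs_le.1 (close h0 h1 hadd ht)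
    have a3 : Ig m s ≤ Ig m (t + SimpleFunc.const G (2 * ((Lam m f - Lam m g) / 8))) := by
      apply Ig_mono h0 hadd
      intro x
      have b1 := (abs_le.1 (hs x)).1
      have b2 := (abs_le.1 (ht x)).2
      have b3 := hfg x
      show s x ≤ t x + 2 * ((Lam m f - Lam m g) / 8)
      linarith
    rw [Ig_add hadd, Ig_const h1 hadd] at a3
    linarith [a1.1, a1.2, a2.1, a2.2]
  · intro c
    have a1 := close h0 h1 hadd (f := fun _ : G => c) (s := SimpleFunc.const G c) (ε := 0)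
      (fun x => by simp)
    rw [Ig_const h1 hadd] at a1
    have a2 := abs_nonpos_iff.1 a1
    linarith
  · intro σ hσ f hf
    have key : ∀ ε : ℝ, 0 < ε → |Lam m (fun x => f (σ x)) - Lam m f| ≤ 2 * ε := by
      intro ε hε
      obtain ⟨s, hs⟩ := approx hf hε
      have a1 := close h0 h1 hadd hs
      have a2 : |Lam m (fun x => f (σ x)) - Ig m (cmp s σ)| ≤ ε :=
        close h0 h1 hadd fun x => hs (σ x)
      rw [Ig_cmp hadd s σ hσ] at a2
      rw [abs_le] at a1 a2 ⊢
      constructor <;> linarith [a1.1, a1.2, a2.1, a2.2]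
    by_contra hne
    have hpos : 0 < |Lam m (fun x => f (σ x)) - Lam m f| := abs_pos.2 (sub_ne_zero.2 hne)
    have := key (|Lam m (fun x => f (σ x)) - Lam m f| / 4) (by linarith)
    linarith

end Pool.Agent.Y658.CG
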